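import Pool.Agent.Run7.h415.LV.Core2
import Pool.Agent.Run7.h415.LV.CutSum

set_option autoImplicit false

/-!
# MP_a93a41_nt: fractional powers of products of short Dirichlet polynomials

For an arbitrary Dirichlet polynomial `D` of length `N` one can apply the large value estimates to the
powers `D^k`. This gives `R ≤ C N^ε (N² V^{-2})^k` for INTEGERS `k` with `T ≤ max(N, (V²/N)²)^k`; for
`k = 1` these are the mean value theorem and the range `V² ≥ N T^{1/2}` in the problem file.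

Here: if `D = D_1 ⋯ D_J` is a product of `J` polynomials with coefficients bounded by `1`, of lengths
`M_j ≤ N^λ`, `∏ M_j ≤ N`, then for `V² ≥ N T^ε` and every REAL `κ ≥ 0` with

`T ≤ max(N, (V²/N)²)^κ`

the number of points of a `1`-separated subset of `[0, T]` with `|D(it)| ≥ V` is at most

`C N^ε (N² V^{-2})^(κ + λ)`.

The constant depends on `J` and `ε` only; it is uniform in `N, T, V, κ, λ`, the lengths and coefficients.
So up to the factor `(N² V^{-2})^λ ≤ N^λ` short factors allow all fractional powers of `D`.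

Proof: for every point `t` one removes the factors from `D_1 ⋯ D_J` one by one, keeping
`log |∏_{j ∈ A} D_j(it)|` at least proportional to the logarithm of the length. So the product of an
integral power of `D` with one of the `2^J` subproducts has length between `T^{1/c}` and `2 N^λ T^{1/c}`,
`c = 1` or `c = 4σ - 2`, `V = N^σ`, and the inequality holds for it with integral exponents (mean
value theorem, or the inequality of Halász, Montgomery and Huxley).
-/

namespace Pool.Agent.Results.MP_a93a41_nt.FractionalPowersOfProducts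

open Finset
open Run7.h415.LV Run7.h415.MQP

/-- `∑_{n ≤ M} c_n n^{-s}` at `s = i t` -/
noncomputable def D (M : ℕ) (c : ℕ → ℂ) (t : ℝ) : ℂ :=
  ∑ n ∈ Icc 1 M, c n * (n : ℂ) ^ (-(Complex.I * t))

section proof

lemma D_norm (M : ℕ) (c : ℕ → ℂ) (t : ℝ) :
    ‖D M c t‖ = ‖Pool.Agent.TH445.MQ.ev (fac M (fun n => (starRingEnd ℂ) (c n))) t‖ := by
  rw [fac_ev]
  have h : D M c t = (starRingEnd ℂ) (∑ n ∈ Icc 1 M, (starRingEnd ℂ) (c n) *
      Pool.Agent.W200.MR.pw t n) := by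
    unfold D
    rw [map_sum]
    refine sum_congr rfl fun n hn => ?_
    have hn0 : (n : ℂ) ≠ 0 := by
      have := (mem_Icc.1 hn).1
      exact_mod_cast (show n ≠ 0 by omega)
    rw [map_mul, Complex.conj_conj]
    congr 1
    rw [Complex.cpow_def_of_ne_zero hn0]
    unfold Pool.Agent.W200.MR.pw
    rw [← Complex.exp_conj, map_mul, Complex.conj_I, Complex.conj_ofReal, ← Complex.natCast_log]
    congr 1
    push_cast
    ring
  rw [h, RCLike.norm_conj]

end proof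

theorem result (J : ℕ) (ε : ℝ) (hJ : 1 ≤ J) (hε : 0 < ε) :
    ∃ C : ℝ, 0 < C ∧ ∀ (N : ℕ) (T V κ lam : ℝ) (M : Fin J → ℕ) (c : Fin J → ℕ → ℂ) (S : Finset ℝ),
      1 ≤ N → 1 ≤ T → 0 < V → (N : ℝ) * T ^ ε ≤ V ^ 2 → 0 ≤ κ → 0 ≤ lam →
      T ≤ (max (N : ℝ) ((V ^ 2 / N) ^ 2)) ^ κ →
      (∀ j, 1 ≤ M j) → (∀ j, (M j : ℝ) ≤ (N : ℝ) ^ lam) → ∏ j, M j ≤ N → (∀ j n, ‖c j n‖ ≤ 1) →
      (∀ t ∈ S, 0 ≤ t ∧ t ≤ T) → (∀ t ∈ S, ∀ u ∈ S, t ≠ u → 1 ≤ |t - u|) →
      (∀ t ∈ S, V ≤ ‖∏ j, D (M j) (c j) t‖) →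
      (S.card : ℝ) ≤ C * (N : ℝ) ^ ε * ((N : ℝ) ^ 2 / V ^ 2) ^ (κ + lam) := by
  obtain ⟨C1, hC1, h1⟩ := core2 J hJ (fun σ => 2 * σ - 1) lv_one ⌈2 / ε⌉₊ ε (2 ^ J) hε
    (one_le_pow₀ (by norm_num))
  obtain ⟨C2, hC2, h2⟩ := core2 J hJ (fun σ => 6 * σ - 4) lv_two ⌈2 / ε⌉₊ ε (2 ^ J) hε
    (one_le_pow₀ (by norm_num))
  refine ⟨max C1 C2, lt_max_of_lt_left (by linarith), ?_⟩
  intro N T V κ lam M c S hN hT hV hNV hκ hlam hTκ hM hML hMN hc hS hsep hSV
  have hN1 : (1 : ℝ) ≤ N := by exact_mod_cast hN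
  have hN0 : (0 : ℝ) < N := by linarith
  have hT0 : 0 < T := by linarith
  rcases S.eq_empty_or_nonempty with h0 | ⟨t0, ht0⟩
  · rw [h0, card_empty, Nat.cast_zero]
    have : 0 < max C1 C2 := lt_max_of_lt_left (by linarith)
    positivity
  have hMr : ∀ j, (1 : ℝ) ≤ M j := fun j => by exact_mod_cast hM j
  set c' : Fin J → ℕ → ℂ := fun j n => (starRingEnd ℂ) (c j n) with hc'
  have hPr : ∀ t, ‖∏ j, D (M j) (c j) t‖ = Pr M c' t := by
    intro t
    rw [norm_prod]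
    unfold Pr
    exact prod_congr rfl fun j _ => D_norm (M j) (c j) t
  have hc'n : ∀ j, ∑ n ∈ Icc 1 (M j), ‖c' j n‖ ^ 2 ≤ M j := by
    intro j
    calc ∑ n ∈ Icc 1 (M j), ‖c' j n‖ ^ 2 ≤ ∑ _n ∈ Icc 1 (M j), (1 : ℝ) := by
          apply sum_le_sum
          intro n _
          simp only [hc']
          rw [RCLike.norm_conj]
          exact pow_le_one₀ (norm_nonneg _) (hc j n)
      _ = _ := by rw [sum_const, Nat.card_Icc, nsmul_eq_mul]; simp
  have hMNr : ∏ j, (M j : ℝ) ≤ N := by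
    have : ((∏ j, M j : ℕ) : ℝ) ≤ N := by exact_mod_cast hMN
    rwa [Nat.cast_prod] at this
  have hVM : V ≤ ∏ j, (M j : ℝ) := by
    have h3 := hSV t0 ht0
    rw [hPr] at h3
    exact h3.trans (Pr_le M c' hc'n t0)
  have hVN : V ≤ N := hVM.trans hMNr
  have hMB : ∏ j, (2 * (M j : ℝ)) ≤ 2 ^ J * N := by
    rw [prod_mul_distrib, prod_const, card_univ, Fintype.card_fin]
    exact mul_le_mul_of_nonneg_left hMNr (by positivity)
  have hTε : 1 ≤ T ^ ε := Real.one_le_rpow hT hε.le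
  have hV2 : (N : ℝ) ≤ V ^ 2 := by nlinarith
  -- the logarithms
  have hlN : 0 ≤ Real.log N := Real.log_nonneg hN1
  have hlT : 0 ≤ Real.log T := Real.log_nonneg hT
  obtain ⟨S', hS'⟩ : ∃ S' : ℝ, S' = ∑ j, Real.log (2 * M j) := ⟨_, rfl⟩
  have hVS : Real.log V ≤ S' := by
    rw [hS', ← Real.log_prod (fun j _ => by have := hMr j; positivity)]
    refine Real.log_le_log hV (hVM.trans ?_)
    exact prod_le_prod (fun j _ => by have := hMr j; linarith) fun j _ => by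
      have := hMr j; linarith
  have hlV : Real.log N + ε * Real.log T ≤ 2 * Real.log V := by
    have h3 := Real.log_le_log (by positivity) hNV
    rw [Real.log_mul hN0.ne' (by positivity), Real.log_rpow hT0, Real.log_pow] at h3
    push_cast at h3
    exact h3
  have hlVN : Real.log V ≤ Real.log N := Real.log_le_log hV hVN
  have hS'0 : 0 ≤ S' := by linarith [mul_nonneg hε.le hlT]
  have hceil : 2 / ε ≤ (⌈2 / ε⌉₊ : ℝ) := Nat.le_ceil _
  -- the exponent
  obtain ⟨σ, hσ, hσ1, hVσ⟩ : ∃ σ : ℝ, 1 / 2 ≤ σ ∧ σ ≤ 1 ∧ Real.log V = σ * Real.log N := by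
    rcases hlN.eq_or_lt with h | h
    · refine ⟨1, by norm_num, le_rfl, ?_⟩
      rw [← h] at hlV hlVN
      have := mul_nonneg hε.le hlT
      rw [← h]
      linarith
    · refine ⟨Real.log V / Real.log N, ?_, ?_, ?_⟩
      · rw [le_div_iff₀ h]
        have := mul_nonneg hε.le hlT
        linarith
      · rw [div_le_one h]
        exact hlVN
      · field_simp
  have hNσ : (N : ℝ) ^ σ = V := by
    rw [Real.rpow_def_of_pos hN0, mul_comm, ← hVσ, Real.exp_log hV]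
  have hSσ : ∀ t ∈ S, (N : ℝ) ^ σ ≤ Pr M c' t := fun t ht => by
    rw [hNσ, ← hPr]
    exact hSV t ht
  have hNq : (N : ℝ) ^ 2 / V ^ 2 = (N : ℝ) ^ (2 - 2 * σ) := by
    rw [Real.rpow_sub hN0, ← hNσ, ← Real.rpow_natCast ((N : ℝ) ^ σ) 2, ← Real.rpow_mul hN0.le,
      ← Real.rpow_natCast (N : ℝ) 2]
    congr 2 <;> push_cast <;> ring
  have hfin : ∀ C : ℝ, 0 < C → ∀ e : ℝ, T ^ e ≤ (N : ℝ) ^ (κ * (2 - 2 * σ)) →
      (S.card : ℝ) ≤ C * (N : ℝ) ^ ε * (((N : ℝ) ^ lam) ^ (2 - 2 * σ) * T ^ e) →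
      (S.card : ℝ) ≤ C * (N : ℝ) ^ ε * ((N : ℝ) ^ 2 / V ^ 2) ^ (κ + lam) := by
    intro C hC e he hcard
    refine hcard.trans ?_
    have e1 : ((N : ℝ) ^ 2 / V ^ 2) ^ (κ + lam) =
        ((N : ℝ) ^ lam) ^ (2 - 2 * σ) * (N : ℝ) ^ (κ * (2 - 2 * σ)) := by
      rw [hNq, ← Real.rpow_mul hN0.le, ← Real.rpow_mul hN0.le, ← Real.rpow_add hN0]
      congr 1
      ring
    rw [e1]
    gcongr
  have hmax : ∀ C : ℝ, C ≤ max C1 C2 → (S.card : ℝ) ≤ C * (N : ℝ) ^ ε * ((N : ℝ) ^ 2 / V ^ 2) ^ (κ + lam) →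
      (S.card : ℝ) ≤ max C1 C2 * (N : ℝ) ^ ε * ((N : ℝ) ^ 2 / V ^ 2) ^ (κ + lam) := by
    intro C hC h
    refine h.trans ?_
    gcongr
  have hεT : ε * Real.log T ≤ (2 * σ - 1) * Real.log N := by
    rw [hVσ] at hlV
    linarith
  have hNS : Real.log N ≤ 2 * S' := by
    rw [hVσ] at hVS
    nlinarith
  rcases le_or_gt T ((N : ℝ) ^ κ) with hA | hA
  · -- mean value theorem
    apply hmax C1 (le_max_left _ _)
    have hcc : (2 * σ - 1) + (2 - 2 * σ) = 1 := by ring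
    have h3 := h1 σ N T ((N : ℝ) ^ lam) M c' S hσ hσ1 (by rw [hcc]; norm_num) hN hT (by
      rw [hcc, one_mul, ← hS']
      have h4 : Real.log T ≤ 2 / ε * S' := by
        rw [div_mul_eq_mul_div, le_div_iff₀ hε]
        nlinarith
      exact h4.trans (mul_le_mul_of_nonneg_right hceil hS'0)) hM hML hMB hc'n hS hsep hSσ
    rw [hcc, div_one] at h3
    refine hfin C1 (by linarith) (2 - 2 * σ) ?_ h3
    rw [Real.rpow_mul hN0.le]
    exact Real.rpow_le_rpow hT0.le hA (by linarith)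
  · -- Halász, Montgomery, Huxley
    apply hmax C2 (le_max_right _ _)
    have hB : (N : ℝ) < (V ^ 2 / N) ^ 2 := by
      by_contra hcon
      push Not at hcon
      rw [max_eq_left hcon] at hTκ
      linarith
    rw [max_eq_right hB.le] at hTκ
    have hVN2 : (V ^ 2 / N) = (N : ℝ) ^ (2 * σ - 1) := by
      rw [Real.rpow_sub hN0, Real.rpow_one, ← hNσ, ← Real.rpow_natCast ((N : ℝ) ^ σ) 2,
        ← Real.rpow_mul hN0.le]
      congr 2
      push_cast
      ring
    have hσ2 : 1 / 2 < σ := by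
      by_contra hcon
      push Not at hcon
      have e : σ = 1 / 2 := le_antisymm hcon hσ
      rw [hVN2, e] at hB
      norm_num at hB
      linarith
    have hcc : (6 * σ - 4) + (2 - 2 * σ) = 4 * σ - 2 := by ring
    have hcc0 : 0 < 4 * σ - 2 := by linarith
    have h3 := h2 σ N T ((N : ℝ) ^ lam) M c' S hσ hσ1 (by rw [hcc]; exact hcc0) hN hT (by
      rw [hcc, ← hS']
      have h4 : Real.log T ≤ 2 / ε * ((4 * σ - 2) * S') := by
        rw [div_mul_eq_mul_div, le_div_iff₀ hε]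
        have h5 : (2 * σ - 1) * Real.log N ≤ (2 * σ - 1) * (2 * S') :=
          mul_le_mul_of_nonneg_left hNS (by linarith)
        nlinarith
      exact h4.trans (mul_le_mul_of_nonneg_right hceil (by positivity))) hM hML hMB hc'n hS hsep hSσ
    rw [hcc] at h3
    refine hfin C2 (by linarith) _ ?_ h3
    have e2 : (N : ℝ) ^ (κ * (2 - 2 * σ)) =
        (((V ^ 2 / N) ^ 2) ^ κ) ^ ((2 - 2 * σ) / (4 * σ - 2)) := by
      rw [hVN2, ← Real.rpow_natCast ((N : ℝ) ^ (2 * σ - 1)) 2, ← Real.rpow_mul hN0.le,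
        ← Real.rpow_mul hN0.le, ← Real.rpow_mul hN0.le]
      congr 1
      have h0 : 4 * σ - 2 ≠ 0 := hcc0.ne'
      push_cast
      rw [mul_div_assoc', eq_div_iff h0]
      ring
    rw [e2]
    exact Real.rpow_le_rpow hT0.le hTκ (div_nonneg (by linarith) hcc0.le)

end Pool.Agent.Results.MP_a93a41_nt.FractionalPowersOfProducts
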