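import Mathlib
import Pool.Agent.Run7.h175.MV.Core

set_option autoImplicit false

/-!
# Almost all polynomial twists of many Dirichlet polynomials have no large values at all

For all `δ > 0`, `A`, `B` there is a degree `d` such that for every family of at most `N^B` sequences
of complex numbers bounded by `1` and every `Q ≥ (d + 1) N^d`, all but at most `N^{-B} Q^d` of the
`Q^d` polynomials `f` of degree at most `d` without constant term and with coefficients in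
`{0, ..., Q - 1}` satisfy `|∑_{n ≤ N} a_n e(f(n)/Q) n^{-it}| ≤ C N^{1/2 + δ}` for all members `(a_n)` of
the family and all real `t` with `|t| ≤ N^A`.
-/

namespace Pool.Agent.Results.MP_a93a41_nt.PolynomialTwistsNoLargeValues

open Finset

/-- `e(f(n)/Q)` for the polynomial `f = f_0 X + f_1 X^2 + ... + f_{d-1} X^d`. -/
noncomputable def phase (Q : ℕ) {d : ℕ} (f : Fin d → Fin Q) (n : ℕ) : ℂ :=
  Complex.exp (2 * Real.pi * Complex.I * ((∑ j, ((f j).val : ℂ) * (n : ℂ) ^ (j.val + 1)) / Q))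

/-- The twisted Dirichlet polynomial `D_f(it) = ∑_{n ≤ N} a_n e(f(n)/Q) n^{-it}`. -/
noncomputable def D (Q : ℕ) {d : ℕ} (N : ℕ) (a : ℕ → ℂ) (f : Fin d → Fin Q) (t : ℝ) : ℂ :=
  ∑ n ∈ Icc 1 N, a n * phase Q f n * (n : ℂ) ^ (-((t : ℂ) * Complex.I))

/-- the coefficients rotated by `n^{-iT}` -/
noncomputable def rot (T : ℝ) (a : ℕ → ℂ) (n : ℕ) : ℂ :=
  a n * Complex.exp (-(Complex.I * (T : ℂ) * (Real.log (n : ℝ) : ℂ)))

lemma norm_rot (T : ℝ) (a : ℕ → ℂ) (n : ℕ) : ‖rot T a n‖ = ‖a n‖ := by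
  have h : (-(Complex.I * (T : ℂ) * (Real.log (n : ℝ) : ℂ))) =
      ((-(T * Real.log (n : ℝ)) : ℝ) : ℂ) * Complex.I := by
    push_cast
    ring
  rw [rot, norm_mul, h, Complex.norm_exp_ofReal_mul_I, mul_one]

lemma D_eq (Q d N : ℕ) (a : ℕ → ℂ) (f : Fin d → Fin Q) (T t : ℝ) :
    D Q N a f t = Run7.h175.MV.DD Q d N (rot T a) f (T - t) := by
  unfold D Run7.h175.MV.DD rot
  refine Finset.sum_congr rfl fun n hn => ?_
  have hn1 : 1 ≤ n := (Finset.mem_Icc.mp hn).1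
  have hn0 : (n : ℂ) ≠ 0 := by
    have : n ≠ 0 := by omega
    exact_mod_cast this
  have e1 : (n : ℂ) ^ (-((t : ℂ) * Complex.I)) =
      Complex.exp (-(Complex.I * (t : ℂ) * (Real.log (n : ℝ) : ℂ))) := by
    rw [Complex.cpow_def_of_ne_zero hn0, ← Complex.natCast_log]
    congr 1
    ring
  have e2 : Complex.exp (-(Complex.I * (t : ℂ) * (Real.log (n : ℝ) : ℂ))) =
      Complex.exp (-(Complex.I * (T : ℂ) * (Real.log (n : ℝ) : ℂ))) *
        Complex.exp (Complex.I * ((T - t : ℝ) : ℂ) * (Real.log (n : ℝ) : ℂ)) := by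
    rw [← Complex.exp_add]
    congr 1
    push_cast
    ring
  have e3 : phase Q f n = Run7.h175.MV.ph Q d f n := rfl
  rw [e1, e2, e3]
  ring

theorem result (δ A B : ℝ) (hδ : 0 < δ) :
    ∃ (d : ℕ) (C : ℝ), 0 < C ∧ ∀ N Q : ℕ, 1 ≤ N → (d + 1) * N ^ d ≤ Q →
      ∀ F : Finset (ℕ → ℂ), (F.card : ℝ) ≤ (N : ℝ) ^ B → (∀ a ∈ F, ∀ n, ‖a n‖ ≤ 1) →
        ∃ E : Finset (Fin d → Fin Q), (E.card : ℝ) ≤ (N : ℝ) ^ (-B) * (Q : ℝ) ^ d ∧
          ∀ f ∉ E, ∀ a ∈ F, ∀ t : ℝ, |t| ≤ (N : ℝ) ^ A →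
            ‖D Q N a f t‖ ≤ C * (N : ℝ) ^ (1 / 2 + δ) := by
  classical
  set A' : ℝ := max A 1 with hA'
  obtain ⟨d, hd⟩ := exists_nat_gt ((2 * |B| + 1 + A') / (2 * δ))
  obtain ⟨C₀, hC₀, h⟩ := Run7.h175.MV.coreM d (A' + 1) 1 one_pos
  set C : ℝ := max 1 (3 * C₀) with hC
  have hC1 : 1 ≤ C := le_max_left _ _
  have hC0 : 0 < C := by linarith
  refine ⟨d, C, hC0, ?_⟩
  intro N Q hN hQ F hF ha
  have hNr1 : (1 : ℝ) ≤ (N : ℝ) := by exact_mod_cast hN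
  have hNr : (0 : ℝ) < (N : ℝ) := by linarith
  set T : ℝ := (N : ℝ) ^ A' with hT
  have hA'1 : 1 ≤ A' := le_max_right _ _
  have hNT : (N : ℝ) ≤ T := by
    calc (N : ℝ) = (N : ℝ) ^ (1 : ℝ) := (Real.rpow_one _).symm
      _ ≤ T := Real.rpow_le_rpow_of_exponent_le hNr1 hA'1
  rcases eq_or_lt_of_le hN with hN1 | hN2
  · refine ⟨∅, ?_, ?_⟩
    · simp only [Finset.card_empty, Nat.cast_zero]
      positivity
    intro f _ a haF t _
    rw [← hN1]
    simp only [Nat.cast_one, Real.one_rpow, mul_one]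
    have h1 := Run7.h175.MV.norm_DD_le Q d 1 (rot 0 a)
      (fun n => by rw [norm_rot]; exact ha a haF n) f (0 - t)
    rw [← D_eq] at h1
    simp only [Nat.cast_one] at h1
    linarith
  choose! E hE1 hE2 using fun a : ℕ → ℂ => fun ha' : ∀ n, ‖a n‖ ≤ 1 =>
    h N Q hN hQ (rot T a) (fun n => by rw [norm_rot]; exact ha' n) ((N : ℝ) ^ (2 * B))
      (Real.rpow_pos_of_pos hNr _)
  refine ⟨F.biUnion E, ?_, ?_⟩
  · have h1 : ((F.biUnion E).card : ℝ) ≤ ∑ a ∈ F, ((E a).card : ℝ) := by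
      exact_mod_cast Finset.card_biUnion_le
    have h2 : ∀ a ∈ F, ((E a).card : ℝ) ≤ (N : ℝ) ^ (-(2 * B)) * (Q : ℝ) ^ d := by
      intro a haF
      rw [Real.rpow_neg hNr.le, inv_mul_eq_div, le_div_iff₀ (Real.rpow_pos_of_pos hNr _)]
      exact hE1 a (ha a haF)
    refine (h1.trans (Finset.sum_le_sum h2)).trans ?_
    rw [Finset.sum_const, nsmul_eq_mul]
    have h3 : (N : ℝ) ^ (-B) = (N : ℝ) ^ B * (N : ℝ) ^ (-(2 * B)) := by
      rw [← Real.rpow_add hNr]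
      congr 1
      ring
    rw [h3, mul_assoc]
    gcongr
  intro f hf a haF t ht
  have hfE : f ∉ E a := fun hfa => hf (Finset.mem_biUnion.mpr ⟨a, haF, hfa⟩)
  have htT : |t| ≤ T := ht.trans (Real.rpow_le_rpow_of_exponent_le hNr1 (le_max_left _ _))
  rw [abs_le] at htT
  have h2T : 2 * T ≤ (N : ℝ) ^ (A' + 1) := by
    have h2N : (2 : ℝ) ≤ (N : ℝ) := by exact_mod_cast hN2
    rw [Real.rpow_add hNr, Real.rpow_one]
    nlinarith
  have h1 := hE2 a (ha a haF) f hfE (2 * T) (by linarith) h2T {T - t}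
    (fun u hu => by
      rw [Finset.mem_singleton] at hu
      subst hu
      constructor <;> linarith [htT.1, htT.2])
    (fun u hu v hv huv => by
      rw [Finset.mem_singleton] at hu hv
      exact absurd (hu.trans hv.symm) huv)
  rw [Finset.sum_singleton, ← D_eq] at h1
  have hd1 : (0 : ℝ) < (d : ℝ) + 1 := by positivity
  have h2 : ‖D Q N a f t‖ ^ (2 * (d + 1)) ≤ (C * (N : ℝ) ^ (1 / 2 + δ)) ^ (2 * (d + 1)) := by
    refine h1.trans ?_
    rw [mul_pow]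
    have e1 : ((N : ℝ) ^ (1 / 2 + δ)) ^ (2 * (d + 1)) =
        (N : ℝ) ^ (2 * (d + 1) * δ) * (N : ℝ) ^ (d + 1) := by
      rw [← Real.rpow_natCast, ← Real.rpow_natCast, ← Real.rpow_mul hNr.le, ← Real.rpow_add hNr]
      congr 1
      push_cast
      ring
    have e2 : C ≤ C ^ (2 * (d + 1)) := le_self_pow₀ hC1 (by omega)
    have e3 : (N : ℝ) ^ (2 * B) * (N : ℝ) ^ (1 : ℝ) * T ≤ (N : ℝ) ^ (2 * (d + 1) * δ) := by
      rw [hT, ← Real.rpow_add hNr, ← Real.rpow_add hNr]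
      refine Real.rpow_le_rpow_of_exponent_le hNr1 ?_
      rw [div_lt_iff₀ (by positivity)] at hd
      have := le_abs_self B
      nlinarith
    have e4 : 3 * C₀ ≤ C := le_max_right _ _
    rw [e1]
    calc C₀ * (N : ℝ) ^ (2 * B) * (N : ℝ) ^ (1 : ℝ) * (2 * T + N) * (N : ℝ) ^ (d + 1)
        ≤ C₀ * (N : ℝ) ^ (2 * B) * (N : ℝ) ^ (1 : ℝ) * (3 * T) * (N : ℝ) ^ (d + 1) := by
          gcongr
          linarith
      _ = 3 * C₀ * ((N : ℝ) ^ (2 * B) * (N : ℝ) ^ (1 : ℝ) * T) * (N : ℝ) ^ (d + 1) := by ring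
      _ ≤ C ^ (2 * (d + 1)) * (N : ℝ) ^ (2 * (d + 1) * δ) * (N : ℝ) ^ (d + 1) := by
          gcongr
          linarith
      _ = C ^ (2 * (d + 1)) * ((N : ℝ) ^ (2 * (d + 1) * δ) * (N : ℝ) ^ (d + 1)) := by ring
  exact le_of_pow_le_pow_left₀ (by omega) (by positivity) h2

end Pool.Agent.Results.MP_a93a41_nt.PolynomialTwistsNoLargeValues
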