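import Mathlib
import Pool.Agent.Run7.h794.QT.E

/-!
# Almost all quadratic twists of Dirichlet polynomials have no large values

For odd `d` let `(n/d)` be the Jacobi symbol, a real character modulo `d`. For all `A`, `B`, `D` and `u > 0` there are
`K` and `C` such that for every family `F` of at most `N ^ B` sequences bounded by one, in EVERY interval of length
`P ≥ N ^ K` all but at most `P / N ^ B` of the odd `d` (primes or not) satisfy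
`|∑_{n ≤ M} a_n (n/d) e(f(n)) n ^ (it)| ≤ C N ^ (1/2 + u)` for all `a` in `F`, all `M ≤ N`, ALL real polynomials `f` of
degree at most `D` and all real `t`, `|t| ≤ N ^ A`. So for all `δ`, `τ > 0` and large `N` there is no `t` with
`N ^ τ ≤ T ≤ N ^ A`, `|t| ≤ T` and `|D(t)| ^ 2 ≥ N T ^ δ`.
-/

set_option autoImplicit false

namespace Pool.Agent.Results.MP_a93a41_nt.QuadraticTwistsNoLargeValues

open Finset
open Pool.Agent.Run7.h794.QT (twist)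

theorem result (A B D : ℕ) :
    (∀ u : ℝ, 0 < u → ∃ K : ℕ, ∃ C : ℝ, 0 < C ∧ ∀ N : ℕ, 1 ≤ N → ∀ x P : ℕ, N ^ K ≤ P →
      ∀ F : Finset (ℕ → ℂ), F.card ≤ N ^ B → (∀ a ∈ F, ∀ n, ‖a n‖ ≤ 1) →
      ∃ Bad ⊆ Ioc x (x + P), Bad.card * N ^ B ≤ P ∧ ∀ d ∈ Ioc x (x + P), Odd d → d ∉ Bad → ∀ a ∈ F, ∀ M ≤ N,
        ∀ (θ : Fin D → ℝ) (t : ℝ), |t| ≤ (N : ℝ) ^ A → ‖twist a d M θ t‖ ≤ C * (N : ℝ) ^ (1 / 2 + u)) ∧
    (∀ δ τ : ℝ, 0 < δ → 0 < τ → ∃ K N₀ : ℕ, ∀ N : ℕ, N₀ ≤ N → ∀ x P : ℕ, N ^ K ≤ P →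
      ∀ F : Finset (ℕ → ℂ), F.card ≤ N ^ B → (∀ a ∈ F, ∀ n, ‖a n‖ ≤ 1) →
      ∃ Bad ⊆ Ioc x (x + P), Bad.card * N ^ B ≤ P ∧ ∀ d ∈ Ioc x (x + P), Odd d → d ∉ Bad → ∀ a ∈ F, ∀ M ≤ N,
        ∀ (θ : Fin D → ℝ) (T V t : ℝ), (N : ℝ) ^ τ ≤ T → T ≤ (N : ℝ) ^ A → 0 < V → N * T ^ δ ≤ V ^ 2 → |t| ≤ T →
          ‖twist a d M θ t‖ < V) := by
  refine ⟨fun u hu => Pool.Agent.Run7.h794.QT.main A B D hu, fun δ τ hδ hτ => ?_⟩
  have hu : 0 < δ * τ / 4 := by positivity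
  obtain ⟨K, C, hC, h⟩ := Pool.Agent.Run7.h794.QT.main A B D hu
  have hlim : Filter.Tendsto (fun N : ℕ => (N : ℝ) ^ (δ * τ / 4)) Filter.atTop Filter.atTop :=
    (tendsto_rpow_atTop hu).comp (tendsto_natCast_atTop_atTop (R := ℝ))
  obtain ⟨N₁, h1⟩ := Filter.eventually_atTop.1 (hlim.eventually_gt_atTop C)
  refine ⟨K, max N₁ 1, fun N hN x P hP F hF ha => ?_⟩
  have hN1 : N₁ ≤ N := (le_max_left _ _).trans hN
  have hN2 : 1 ≤ N := (le_max_right _ _).trans hN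
  have hNr : (1 : ℝ) ≤ N := by exact_mod_cast hN2
  have hN0 : (0 : ℝ) < N := by linarith
  obtain ⟨Bad, h2, h3, h4⟩ := h N hN2 x P hP F hF ha
  refine ⟨Bad, h2, h3, fun d hd hodd hdB a haF M hM θ T V t hT1 hT2 hV hVT ht => ?_⟩
  have h5 := h4 d hd hodd hdB a haF M hM θ t (ht.trans hT2)
  have h6 := h1 N hN1
  have h7 : C * (N : ℝ) ^ (1 / 2 + δ * τ / 4) < (N : ℝ) ^ (1 / 2 + δ * τ / 2) := by
    have e1 : (N : ℝ) ^ (1 / 2 + δ * τ / 2) = (N : ℝ) ^ (δ * τ / 4) * (N : ℝ) ^ (1 / 2 + δ * τ / 4) := by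
      rw [← Real.rpow_add hN0]
      congr 1
      ring
    rw [e1]
    exact mul_lt_mul_of_pos_right h6 (Real.rpow_pos_of_pos hN0 _)
  have h8 : ((N : ℝ) ^ (1 / 2 + δ * τ / 2)) ^ 2 ≤ V ^ 2 := by
    refine le_trans ?_ hVT
    have e1 : ((N : ℝ) ^ (1 / 2 + δ * τ / 2)) ^ 2 = N * ((N : ℝ) ^ τ) ^ δ := by
      rw [← Real.rpow_natCast, ← Real.rpow_mul hN0.le, ← Real.rpow_mul hN0.le]
      have : (1 / 2 + δ * τ / 2) * ((2 : ℕ) : ℝ) = 1 + τ * δ := by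
        push_cast
        ring
      rw [this, Real.rpow_add hN0, Real.rpow_one]
    rw [e1]
    exact mul_le_mul_of_nonneg_left (Real.rpow_le_rpow (by positivity) hT1 hδ.le) hN0.le
  have h9 : (N : ℝ) ^ (1 / 2 + δ * τ / 2) ≤ V := by
    exact (pow_le_pow_iff_left₀ (by positivity) hV.le (by norm_num)).1 h8
  linarith

end Pool.Agent.Results.MP_a93a41_nt.QuadraticTwistsNoLargeValues
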