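import Pool.Agent.Run7.h844.RP.PwU7

/-!
# Large values of Dirichlet polynomials near the values of generalised polynomials at primes

Method: exponential sums over primes with the phase of a generalised polynomial: derivative bounds uniform in the
coefficients, van der Corput differencing of all orders, bilinear sums, Vaughan's identity (after `Pool.Agent.H895R3.NK`,
`Pool.Agent.H373R2.T7`), with a power saving at all real frequencies between two powers (library `Pool.Agent.Run7.h844.RP`).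
The frequencies `log (m / m')` with `m, m' ≤ N ^ s` are in this range, so the moment of order `2 s` over the primes is the
diagonal one, for every fixed `s` and arbitrary coefficients; a net for the windows.
-/

set_option autoImplicit false

namespace Pool.Agent.Results.MP_a93a41_nt.ValuesAtPrimes

open Finset

/-- The generalised polynomial `∑ a x * t ^ x`, `x ∈ F`, with real exponents and coefficients. -/
noncomputable def genPoly (F : Finset ℝ) (a : ℝ → ℝ) (t : ℝ) : ℝ := ∑ x ∈ F, a x * t ^ x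

/-- `c` is the largest exponent; it is positive and not an integer, and its coefficient is not zero. -/
def Leading (F : Finset ℝ) (a : ℝ → ℝ) (c : ℝ) : Prop :=
  c ∈ F ∧ (∀ x ∈ F, x ≤ c) ∧ 0 < c ∧ (∀ m : ℕ, c ≠ m) ∧ a c ≠ 0

/-- the primes in `(X, 2 X]` -/
def P (X : ℕ) : Finset ℕ := (Ioc X (2 * X)).filter Nat.Prime

/-- `D(it) = ∑_{n ≤ N} a(n) n ^ (-it)` -/
noncomputable def D (a : ℕ → ℂ) (N : ℕ) (t : ℝ) : ℂ := ∑ n ∈ Icc 1 N, a n * (n : ℂ) ^ (-((t : ℂ) * Complex.I))

open Classical in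
/-- Let `f` be a generalised polynomial whose largest exponent `c` is positive and not an integer. For all `A ≥ 0` and all natural
numbers `s` there are `κ > 0` and `C > 0` such that for all large `X`, all real `z`, all `1 ≤ N ≤ X ^ κ`, ALL coefficients with
`|a n| ≤ 1` and all `V ≥ 2`, the number of the primes `X < p ≤ 2 X` for which `|D(it)| ≥ V` for at least one real `t` with
`|t - (f(p) + z)| ≤ N ^ A` is at most `C N ^ (A + 3) (N / V ^ 2) ^ s` times the number of all of them. -/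
theorem result (F : Finset ℝ) (f : ℝ → ℝ) (c : ℝ) (hF : Leading F f c) (A : ℝ) (hA : 0 ≤ A) (s : ℕ) :
    ∃ κ C : ℝ, 0 < κ ∧ 0 < C ∧ ∃ X₀ : ℕ, ∀ X : ℕ, X₀ ≤ X → ∀ z : ℝ, ∀ N : ℕ, 1 ≤ N → (N : ℝ) ≤ (X : ℝ) ^ κ →
      ∀ a : ℕ → ℂ, (∀ n, ‖a n‖ ≤ 1) → ∀ V : ℝ, 2 ≤ V →
      (((P X).filter fun p : ℕ => ∃ t : ℝ, |t - (genPoly F f p + z)| ≤ (N : ℝ) ^ A ∧ V ≤ ‖D a N t‖).card : ℝ) ≤
        C * (N : ℝ) ^ (A + 3) * ((N : ℝ) / V ^ 2) ^ s * (P X).card := by
  obtain ⟨hcF, hmax, hc, hn, ha⟩ := hF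
  obtain ⟨κ, C, hκ, hC, X₀, h1⟩ := Pool.Agent.Run7.h844.RP.Wy.primes_win F c hcF hn hc hmax f ha A hA s
  refine ⟨κ, C, hκ, hC, X₀, fun X hX z N hN hNX a ha V hV => ?_⟩
  refine le_trans ?_ (h1 X hX z N hN hNX a ha V hV)
  apply Nat.cast_le.2
  apply card_le_card
  intro p hp
  rw [mem_filter] at hp ⊢
  obtain ⟨hp1, t, ht, hVt⟩ := hp
  refine ⟨hp1, t - (genPoly F f p + z), ht, ?_⟩
  have h2 : Pool.Agent.Run7.h844.RP.ph F f p + z + (t - (genPoly F f p + z)) = t := by
    have : Pool.Agent.Run7.h844.RP.ph F f p = genPoly F f p := rfl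
    rw [this]
    ring
  rw [h2, Pool.Agent.Run7.h844.RP.Wy.dp_eq]
  exact hVt

end Pool.Agent.Results.MP_a93a41_nt.ValuesAtPrimes
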